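import Pool.Agent.H523.ZG.All

set_option autoImplicit false

/-!
# A lower bound for the form factor of the zeros modulo a prime polynomial, up to two

The question in the polynomial ring over a finite field with `q` elements: the zeros of all the
Dirichlet `L`-functions modulo a prime polynomial `Q` of degree `d`; `log T` is replaced by
`d log q` and `T ^ α` by `q ^ m`, `α = m / d`.
-/

namespace Pool.Agent.Results.MP_661d83_nt.LowerBoundBelowTwo

open Polynomial
open Pool.Agent.H341R2.Sharp (Mon mem_Mon)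
open Pool.Agent.H523.FF (Ir mem_Ir two_le_card)
open Pool.Agent.H523

/-- the `L`-function `L(u, χ)`, `u = q ^ (-s)`, of a character `χ` modulo `Q`: the sum of
`χ f * u ^ deg f` over the monic `f` of degree less than `deg Q` (for `χ` nonprincipal the monic
polynomials of each larger degree contribute zero) -/
noncomputable def L {F : Type} [Field F] (Q : F[X]) (χ : MulChar (AdjoinRoot Q) ℂ) : ℂ[X] :=
  ∑ k ∈ Finset.range Q.natDegree,
    C (∑ᶠ f ∈ {f : F[X] | f.Monic ∧ f.natDegree = k}, χ (AdjoinRoot.mk Q f)) * X ^ k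

open scoped Classical in
/-- the zeros `u` of `L(u, χ)` on the critical circle `|u| = q ^ (-1/2)`, with multiplicities -/
noncomputable def zeros {F : Type} [Field F] [Fintype F] (Q : F[X])
    (χ : MulChar (AdjoinRoot Q) ℂ) : Multiset ℂ :=
  (L Q χ).roots.filter (fun u => ‖u‖ = (√(Fintype.card F : ℝ))⁻¹)

/-- the power sum `∑ (√q * u) ^ (-m)` over the zeros `u` of `L(u, χ)` on the critical circle, that
is `∑ e(m θ)` if the zeros are `u = q ^ (-1/2) * e(-θ)` -/
noncomputable def powerSum {F : Type} [Field F] [Fintype F] (Q : F[X])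
    (χ : MulChar (AdjoinRoot Q) ℂ) (m : ℕ) : ℂ :=
  ((zeros Q χ).map (fun u => (((√(Fintype.card F : ℝ) : ℝ) : ℂ) * u)⁻¹ ^ m)).sum

/-- the mean over the nonprincipal characters modulo `Q` -/
noncomputable def mean {F : Type} [Field F] (Q : F[X]) (g : MulChar (AdjoinRoot Q) ℂ → ℝ) : ℝ :=
  (∑ᶠ χ ∈ {χ : MulChar (AdjoinRoot Q) ℂ | χ ≠ 1}, g χ) /
    ({χ : MulChar (AdjoinRoot Q) ℂ | χ ≠ 1}.ncard : ℝ)

/-- the mean of `|∑ e(m θ)| ^ 2`, a sum over the pairs of zeros of one `L`-function -/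
noncomputable def meanSquare {F : Type} [Field F] [Fintype F] (Q : F[X]) (m : ℕ) : ℝ :=
  mean Q (fun χ => ‖powerSum Q χ m‖ ^ 2)

lemma L_eq {F : Type} [Field F] [Fintype F] (Q : F[X]) (χ : MulChar (AdjoinRoot Q) ℂ) :
    L Q χ = CM.Lp Q χ := by
  classical
  unfold L CM.Lp
  refine Finset.sum_congr rfl (fun k _ => ?_)
  congr 2
  have h : {f : F[X] | f.Monic ∧ f.natDegree = k} = ((Mon F k : Finset F[X]) : Set F[X]) := by
    ext f
    rw [Set.mem_ofPred_eq, Finset.mem_coe, mem_Mon]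
  rw [h, finsum_mem_coe_finset]

lemma zeros_eq {F : Type} [Field F] [Fintype F] (Q : F[X]) (χ : MulChar (AdjoinRoot Q) ℂ) :
    zeros Q χ = CM.zs χ := by
  unfold zeros CM.zs
  rw [L_eq]

lemma powerSum_eq {F : Type} [Field F] [Fintype F] (Q : F[X]) (χ : MulChar (AdjoinRoot Q) ℂ)
    (m : ℕ) : powerSum Q χ m = CM.pw χ m := by
  unfold powerSum CM.pw
  rw [zeros_eq]

open scoped Classical in
lemma mean_eq {F : Type} [Field F] [Fintype F] {Q : F[X]} (hQ : Q.Monic) (hirr : Irreducible Q)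
    [Fintype (MulChar (AdjoinRoot Q) ℂ)] (g : MulChar (AdjoinRoot Q) ℂ → ℝ) :
    mean Q g = (∑ χ ∈ (Finset.univ : Finset (MulChar (AdjoinRoot Q) ℂ)).erase 1, g χ) /
      ((Fintype.card F : ℝ) ^ Q.natDegree - 2) := by
  have h : {χ : MulChar (AdjoinRoot Q) ℂ | χ ≠ 1} =
      (((Finset.univ : Finset (MulChar (AdjoinRoot Q) ℂ)).erase 1 :
        Finset (MulChar (AdjoinRoot Q) ℂ)) : Set (MulChar (AdjoinRoot Q) ℂ)) := by
    ext χ
    simp
  unfold mean
  rw [h, finsum_mem_coe_finset, Set.ncard_coe_finset, CM.card_nonpr hQ hirr]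

lemma meanSquare_eq {F : Type} [Field F] [Fintype F] {Q : F[X]} (hQ : Q.Monic)
    (hirr : Irreducible Q) [Fintype (MulChar (AdjoinRoot Q) ℂ)] (m : ℕ) :
    meanSquare Q m = CM.MSq Q m := by
  unfold meanSquare CM.MSq
  rw [mean_eq hQ hirr]
  simp_rw [powerSum_eq]

/-- **A lower bound for the form factor of the zeros modulo a prime polynomial.**

(1), for every monic irreducible `Q` of degree `d ≥ 2` over a finite field with `q` elements: for
every nonprincipal character modulo `Q`, all the zeros of `L(u, χ)` other than `u = 1` lie on the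
critical circle and there are `d - 1` or `d - 2` of them.

(2) For every `ε > 0` there are `δ > 0` and `N` such that for every finite field with `q` elements and
every `d ≥ N`, for all but at most `q ^ (d - δ d)` of the monic irreducible `Q` of degree `d`, for all
`m = α d` with `d < m ≤ (2 - ε) d`: the mean of `|∑ e(m θ)| ^ 2` over the nonprincipal characters is
at least `(1 - α / 2 - ε) d`, and it is at least `(1 - ε) d` if `m ≤ (4/3 - ε) d`. -/
theorem result :
    (∀ (F : Type) [Field F] [Fintype F] (Q : F[X]), Q.Monic → Irreducible Q → 2 ≤ Q.natDegree →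
      ∀ χ : MulChar (AdjoinRoot Q) ℂ, χ ≠ 1 →
        (∀ u : ℂ, (L Q χ).IsRoot u → u ≠ 1 → ‖u‖ = (√(Fintype.card F : ℝ))⁻¹) ∧
        ((zeros Q χ).card = Q.natDegree - 1 ∨ (zeros Q χ).card = Q.natDegree - 2)) ∧
    ∀ ε : ℝ, 0 < ε → ∃ δ : ℝ, 0 < δ ∧ ∃ N : ℕ,
      ∀ (F : Type) [Field F] [Fintype F] (d : ℕ), N ≤ d →
        ({Q : F[X] | Q.Monic ∧ Irreducible Q ∧ Q.natDegree = d ∧
          ¬(∀ m : ℕ, d < m → (m : ℝ) ≤ (2 - ε) * d →
            (1 - (m : ℝ) / d / 2 - ε) * d ≤ meanSquare Q m ∧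
            ((m : ℝ) ≤ (4 / 3 - ε) * d → (1 - ε) * d ≤ meanSquare Q m))}.ncard : ℝ) ≤
          (Fintype.card F : ℝ) ^ ((d : ℝ) - δ * d) := by
  classical
  constructor
  · intro F _ _ Q hQ hirr hd χ hχ
    have hL0 : CM.Lp Q χ ≠ 0 := CM.Lp_ne_zero (by omega) χ
    constructor
    · intro u hu hu1
      have hmem : u ∈ (CM.Lp Q χ).roots := by
        rw [mem_roots hL0, ← L_eq]
        exact hu
      by_cases he : CM.EvenC χ
      · obtain ⟨h1, -⟩ := CM.zs_even hQ hirr hd hχ he
        rw [h1, Multiset.mem_cons] at hmem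
        rcases hmem with h | h
        · exact absurd h hu1
        · unfold CM.zs at h
          exact (Multiset.mem_filter.mp h).2
      · obtain ⟨h1, -⟩ := CM.zs_odd hQ hirr hd hχ he
        rw [← h1] at hmem
        unfold CM.zs at hmem
        exact (Multiset.mem_filter.mp hmem).2
    · rw [zeros_eq]
      by_cases he : CM.EvenC χ
      · exact Or.inr (CM.zs_even hQ hirr hd hχ he).2
      · exact Or.inl (CM.zs_odd hQ hirr hd hχ he).2
  · intro ε hε
    set η : ℝ := min ε (1 / 100) with hηd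
    have hη : 0 < η := lt_min hε (by norm_num)
    have hηε : η ≤ ε := min_le_left _ _
    obtain ⟨δ₁, hδ₁, N₁, hN₁⟩ := CM.good_irr η hη
    obtain ⟨δ₂, hδ₂, N₂, hN₂⟩ := ZG.all_G η (η / 4) hη (by linarith)
    set δ₃ : ℝ := min δ₁ (1 / 4) with hδ₃
    have hδ₃0 : 0 < δ₃ := lt_min hδ₁ (by norm_num)
    obtain ⟨N₃, hN₃⟩ := ZG.W_near η δ₃ hη hδ₃0 (min_le_right _ _)
    obtain ⟨N₄, hN₄⟩ := ZG.W_far Pool.Agent.H84.ZG.main η hη (min_le_right _ _)
    set δ : ℝ := min δ₁ δ₂ / 2 with hδ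
    have hmin : 0 < min δ₁ δ₂ := lt_min hδ₁ hδ₂
    have hδ0 : 0 < δ := by rw [hδ]; linarith
    obtain ⟨N₅, hN₅⟩ := CM.poly_le_exp 2 0 δ hδ0
    refine ⟨δ, hδ0, N₁ + N₂ + N₃ + N₄ + N₅ + 2, ?_⟩
    intro F _ _ d hd
    have hq := two_le_card (F := F)
    set q : ℝ := (Fintype.card F : ℝ) with hqd
    have hq0 : 0 < q := by linarith
    have hsub : {Q : F[X] | Q.Monic ∧ Irreducible Q ∧ Q.natDegree = d ∧
          ¬(∀ m : ℕ, d < m → (m : ℝ) ≤ (2 - ε) * d →
            (1 - (m : ℝ) / d / 2 - ε) * d ≤ meanSquare Q m ∧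
            ((m : ℝ) ≤ (4 / 3 - ε) * d → (1 - ε) * d ≤ meanSquare Q m))} ⊆
        (((Ir F d).filter (fun Q => CM.BadQ η δ₁ Q) ∪
          (Ir F d).filter (fun Q => ZG.BadG η (η / 4) Q) : Finset F[X]) : Set F[X]) := by
      rintro Q ⟨hQ, hirr, hQd, hbad⟩
      by_contra hQE
      apply hbad
      rw [Finset.mem_coe, Finset.mem_union, not_or, Finset.mem_filter, Finset.mem_filter] at hQE
      have hQI : Q ∈ Ir F d := mem_Ir.mpr ⟨hQ, hirr, hQd⟩
      have hb1 : ¬ CM.BadQ η δ₃ Q := fun hb => hQE.1 ⟨hQI, ZG.bad_mono (min_le_left _ _) hb⟩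
      have hb2 : ¬ ZG.BadG η (η / 4) Q := fun hb => hQE.2 ⟨hQI, hb⟩
      have hfin : Finite (MulChar (AdjoinRoot Q) ℂ) := by
        have := RH.finite_adjoinRoot hQ
        infer_instance
      have hft : Fintype (MulChar (AdjoinRoot Q) ℂ) := Fintype.ofFinite _
      intro m hm1 hm2
      have hd0 : (0:ℝ) < d := by exact_mod_cast (show 0 < d by omega)
      have hηd' : η * (d:ℝ) ≤ ε * d := mul_le_mul_of_nonneg_right hηε hd0.le
      rw [meanSquare_eq hQ hirr]
      constructor
      · have h := hN₄ F Q hQ hirr (by omega) hb2 m (by omega) (by rw [hQd]; linarith)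
        rw [hQd] at h
        have e : (1 - (m : ℝ) / d / 2 - ε) * d = d - (m:ℝ) / 2 - ε * d := by
          field_simp
        rw [e]
        linarith
      · intro hm3
        have h := hN₃ F Q hQ hirr (by omega) hb1 m (by omega) (by rw [hQd]; linarith)
        rw [hQd, min_eq_right (by exact_mod_cast hm1.le)] at h
        have := (abs_le.mp h).1
        linarith
    refine (Nat.cast_le.mpr (Set.ncard_le_ncard hsub (Finset.finite_toSet _))).trans ?_
    rw [Set.ncard_coe_finset]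
    have h1 := hN₁ F d (by omega)
    have h2 := hN₂ F d (by omega)
    rw [← hqd] at h1 h2
    have h3 : ((((Ir F d).filter (fun Q => CM.BadQ η δ₁ Q) ∪
        (Ir F d).filter (fun Q => ZG.BadG η (η / 4) Q)).card : ℕ) : ℝ) ≤
        (((Ir F d).filter (fun Q => CM.BadQ η δ₁ Q)).card : ℝ) +
        (((Ir F d).filter (fun Q => ZG.BadG η (η / 4) Q)).card : ℝ) := by
      exact_mod_cast Finset.card_union_le _ _
    have hdn : (0:ℝ) ≤ d := Nat.cast_nonneg _
    have hm : ∀ x : ℝ, 2 * δ ≤ x → q ^ (-(x * d)) ≤ q ^ (-(2 * δ * d)) := by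
      intro x hx
      apply Real.rpow_le_rpow_of_exponent_le (by linarith)
      have := mul_le_mul_of_nonneg_right hx hdn
      linarith
    have h4 := hm δ₁ (by rw [hδ]; linarith [min_le_left δ₁ δ₂])
    have h5 := hm δ₂ (by rw [hδ]; linarith [min_le_right δ₁ δ₂])
    have h6 : 2 * q ^ (-(2 * δ * d)) ≤ q ^ (-(δ * d)) := by
      have h7 := hN₅ d (by omega)
      rw [pow_zero, mul_one] at h7
      have h8 : ((2:ℝ) ^ δ) ^ d ≤ q ^ (δ * d) := by
        rw [Real.rpow_mul hq0.le, Real.rpow_natCast]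
        exact pow_le_pow_left₀ (by positivity) (Real.rpow_le_rpow (by norm_num) hq hδ0.le) d
      have h9 : q ^ (-(δ * d)) = q ^ (δ * d) * q ^ (-(2 * δ * d)) := by
        rw [← Real.rpow_add hq0]
        congr 1
        ring
      rw [h9]
      exact mul_le_mul_of_nonneg_right (h7.trans h8) (Real.rpow_nonneg hq0.le _)
    have hqd0 : 0 < q ^ d := by positivity
    rw [sub_eq_add_neg, Real.rpow_add hq0, Real.rpow_natCast]
    have h10 := mul_le_mul_of_nonneg_left h4 hqd0.le
    have h11 := mul_le_mul_of_nonneg_left h5 hqd0.le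
    have h12 := mul_le_mul_of_nonneg_left h6 hqd0.le
    linarith

end Pool.Agent.Results.MP_661d83_nt.LowerBoundBelowTwo
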