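import Pool.Agent.H481.FG1

/-!
# Montgomery's theorem gives no lower bound for the form factor beyond its range

The question is whether `F(α) ≥ 2 - α` for `1 < α < 2`, where `F(α) = |α| + o(1)` uniformly for
`|α| ≤ 1` is known (Montgomery).  In the unitary model the zeros are replaced by `N` random points
`z_1, …, z_N` of the unit circle, `N` has the size of `log T`, the form factor is
`K(j) = E |z_1^j + … + z_N^j|²`, and `K(j) / N` corresponds to `F(j / N)`.  Montgomery's theorem
becomes `K(j) = j + o(N)` uniformly for `1 ≤ j ≤ N`, and the question becomes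
`K(k) ≥ 2 N - k - o(N)` for `N < k < 2 N`.

It is proved that for every `k ≥ N` there are random points with

* `z_1^k + … + z_N^k = 0` surely, so `K(k) = 0`;
* `K(j) = min(j, N) + (N - min(k - j, N)) / (N - 1)` for `1 ≤ j < k`, so that `K(j)` differs from
  the value `min(j, N)` of the eigenvalues of Haar distributed unitary matrices by at most `1`, for
  ALL `1 ≤ j < k`, and is equal to it for `j ≤ k - N`;
* all correlations (of all levels) of range `k - N` equal to those of the Haar unitary matrices.

So the uniform asymptotics of the pair correlation function in Montgomery's range, even with the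
error term `O(1/log T)` and even continued by the conjectured value `F = 1` up to `α`, and even with
all higher correlations in the range `α - 1`, do not imply any positive lower bound for `F(α)`.
The lattice configurations of the Alternative Hypothesis have `F(α) = 2 - α`.

Construction: the law with the density `|Δ(z)|²` on the product of the cosets `{z : z^k = u_i}` of
the group of the `k`-th roots of unity, with `u_1 + … + u_N = 0`.
-/

open MeasureTheory

namespace Pool.Agent.Results.MP_661d83_nt.VanishingFormFactor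

/-- the mean of `f` over the eigenvalues `z = (e^{iθ_1}, …, e^{iθ_N})` of a Haar distributed
unitary `N × N` matrix (Weyl's formula):
`(N! (2π)^N)⁻¹ ∫_{(0, 2π]^N} f(z) ∏_{i < j} |z_j - z_i|² dθ` -/
noncomputable def haarMean (N : ℕ) (f : (Fin N → ℂ) → ℂ) : ℂ :=
  ((N.factorial : ℂ) * (2 * Real.pi) ^ N)⁻¹ *
    ∫ θ in Set.univ.pi fun _ : Fin N => Set.Ioc (0 : ℝ) (2 * Real.pi),
      f (fun j => Complex.exp (Complex.I * θ j)) *
        ((∏ i : Fin N, ∏ j ∈ Finset.Ioi i,
          ‖Complex.exp (Complex.I * θ j) - Complex.exp (Complex.I * θ i)‖ ^ 2 : ℝ) : ℂ)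

/-- `ν` is a law of `N` points on the unit circle with the correlations of range `R` of the
eigenvalues of a Haar distributed unitary `N × N` matrix: the means `E[F(z) conj G(z)]` are the
same, for all polynomials `F`, `G` of total degree at most `R` -/
structure Agrees (N R : ℕ) (ν : Measure (Fin N → ℂ)) : Prop where
  prob : IsProbabilityMeasure ν
  unit : ∀ᵐ z ∂ν, ∀ i, ‖z i‖ = 1
  moments : ∀ F G : MvPolynomial (Fin N) ℂ, F.totalDegree ≤ R → G.totalDegree ≤ R →
    ∫ z, MvPolynomial.eval z F * (starRingEnd ℂ) (MvPolynomial.eval z G) ∂ν =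
      haarMean N (fun z => MvPolynomial.eval z F * (starRingEnd ℂ) (MvPolynomial.eval z G))

/-- the form factor `K(j) = E |z_1^j + … + z_N^j|²` of the law `ν` -/
noncomputable def formFactor {N : ℕ} (ν : Measure (Fin N → ℂ)) (j : ℕ) : ℝ :=
  ∫ z, ‖∑ i, z i ^ j‖ ^ 2 ∂ν

/-- **Theorem.** For all `2 ≤ N ≤ k` there is a law `ν` of `N` points on the unit circle with the
correlations of range `k - N` of the eigenvalues of Haar distributed unitary matrices, such that
almost surely `z_1^k + … + z_N^k = 0`, so `K(k) = 0`, while for all `1 ≤ j < k` one has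
`K(j) = min(j, N) + (N - min(k - j, N)) / (N - 1)`, which is at least `min(j, N)` and at most
`min(j, N) + 1`. -/
theorem result (N k : ℕ) (hN : 2 ≤ N) (hk : N ≤ k) :
    ∃ ν : Measure (Fin N → ℂ), Agrees N (k - N) ν ∧
      (∀ᵐ z ∂ν, ∑ i, z i ^ k = 0) ∧ formFactor ν k = 0 ∧
      ∀ j : ℕ, 1 ≤ j → j < k →
        formFactor ν j = (min j N : ℕ) + ((N : ℝ) - (min (k - j) N : ℕ)) / (N - 1) ∧
        ((min j N : ℕ) : ℝ) ≤ formFactor ν j ∧ formFactor ν j ≤ (min j N : ℕ) + 1 := by
  have hN2 : (2 : ℝ) ≤ N := by exact_mod_cast hN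
  have hN1 : (0 : ℝ) < (N : ℝ) - 1 := by linarith
  obtain ⟨u, hu, hus⟩ := Pool.Agent.H481.FF.sum_exists hN (v := 0) le_rfl (by positivity)
  have hk0 : 0 < k := by omega
  have hc := Pool.Agent.H481.FF.cc_norm k u
  have hpow : ∀ i, Pool.Agent.H481.FF.cc k u i ^ k = u i :=
    fun i => Pool.Agent.H481.FF.cc_pow hk0 hu i
  have hsum : ∑ i, u i = 0 := by
    have := pow_eq_zero_iff (two_ne_zero) |>.1 hus
    exact norm_eq_zero.1 this
  have hae : ∀ᵐ z ∂(Pool.Agent.H481.FF.claw (Pool.Agent.H481.FF.cc k u) k),
      ∑ i, z i ^ k = 0 := by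
    filter_upwards [Pool.Agent.H481.FF.claw_pow (Pool.Agent.H481.FF.cc k u) hk0] with z hz
    rw [← hsum]
    exact Finset.sum_congr rfl fun i _ => by rw [hz i, hpow i]
  refine ⟨Pool.Agent.H481.FF.claw (Pool.Agent.H481.FF.cc k u) k, ⟨?_, ?_, ?_⟩, hae, ?_, ?_⟩
  · exact Pool.Agent.H481.FF.claw_prob (by omega) hc hk
  · exact Pool.Agent.H481.FF.claw_unit hc k
  · exact fun F G hF hG => Pool.Agent.H481.FF.claw_mom (by omega) hc (by omega) F G hF hG
  · unfold formFactor
    rw [integral_congr_ae (g := fun _ => (0 : ℝ)) (by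
      filter_upwards [hae] with z hz
      rw [hz]
      simp)]
    simp
  · intro j hj hjk
    have h := Pool.Agent.H481.FG.ff_coset hN hc hk (show 0 < j by omega) hjk
    have e : Pool.Agent.H481.FF.ffac (Pool.Agent.H481.FF.claw (Pool.Agent.H481.FF.cc k u) k) j =
        formFactor (Pool.Agent.H481.FF.claw (Pool.Agent.H481.FF.cc k u) k) j := by
      unfold Pool.Agent.H481.FF.ffac formFactor
      simp only [zpow_natCast]
    have h0 : ∑ i, Pool.Agent.H481.FF.cc k u i ^ k = 0 := by
      rw [← hsum]
      exact Finset.sum_congr rfl fun i _ => hpow i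
    rw [e, h0] at h
    have h2 : formFactor (Pool.Agent.H481.FF.claw (Pool.Agent.H481.FF.cc k u) k) j =
        (min j N : ℕ) + ((N : ℝ) - (min (k - j) N : ℕ)) / (N - 1) := by
      rw [h]
      have : (N : ℝ) ≠ 0 := by linarith
      field_simp
      simp
      ring
    have h3 : ((min (k - j) N : ℕ) : ℝ) ≤ N := by exact_mod_cast min_le_right _ _
    have h4 : (1 : ℝ) ≤ ((min (k - j) N : ℕ) : ℝ) := by
      have : 1 ≤ min (k - j) N := by omega
      exact_mod_cast this
    refine ⟨h2, ?_, ?_⟩
    · rw [h2]
      have : 0 ≤ ((N : ℝ) - (min (k - j) N : ℕ)) / (N - 1) := div_nonneg (by linarith) hN1.le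
      linarith
    · rw [h2]
      have : ((N : ℝ) - (min (k - j) N : ℕ)) / (N - 1) ≤ 1 := by
        rw [div_le_one hN1]
        linarith
      linarith

end Pool.Agent.Results.MP_661d83_nt.VanishingFormFactor
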